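import Pool.Agent.R890.FF.BF

set_option autoImplicit false

/-! # Six even subgraphs with every edge in exactly four of them: vertex covers with nine vertices

A finite graph, loops and parallel edges allowed, has vertex set `V` and edge set `E`; the ends of
the edge `e` are `src e` and `dst e`. The proof works with flows with values in the group `(Z/2)^5`
of even vectors with six coordinates, all of whose values have weight four. A smallest
counterexample has girth at least five: circuits with at most four edges can be contracted, since
nowhere-zero flows with values in `(Z/2)^2` extend to them. If the graph after contraction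
of all such circuits is not the Petersen graph, it has such a flow or has at least 18 vertices of
odd degree (the theorem of the starting library on at most 16 odd vertices); a vertex cover with
at most nine vertices excludes this. Petersen quotients are handled by gluing at the ten 3-cuts of
the quotient. -/

namespace Pool.Agent.Results.MP_40718a_co.VertexCoverNine

open Finset

/-- the simple graph in which two distinct vertices are adjacent if an edge in `F` joins them -/
def under {V E : Type} (src dst : E → V) (F : Set E) : SimpleGraph V where
  Adj x y := x ≠ y ∧ ∃ e ∈ F, (src e = x ∧ dst e = y) ∨ (src e = y ∧ dst e = x)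
  symm := ⟨fun _ _ h => ⟨h.1.symm, h.2.imp fun _ he => ⟨he.1, he.2.symm⟩⟩⟩
  loopless := ⟨fun _ h => h.1 rfl⟩

/-- the edge `e` is a cut edge: its ends are not connected by the other edges -/
def IsCutEdge {V E : Type} (src dst : E → V) (e : E) : Prop :=
  ¬ (under src dst {e' | e' ≠ e}).Reachable (src e) (dst e)

/-- the degree of `v` in the set of edges `F`, where a loop counts twice -/
def deg {V E : Type} [DecidableEq V] (src dst : E → V) (F : Finset E) (v : V) : ℕ :=
  ∑ e ∈ F, ((if src e = v then 1 else 0) + (if dst e = v then 1 else 0))

/-- **Theorem.** A graph without a cut edge, in which at most nine vertices cover all edges that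
are not loops, has six even subgraphs such that every edge is in exactly four of them. -/
theorem result (V E : Type) [Fintype V] [DecidableEq V] [Fintype E] [DecidableEq E]
    (src dst : E → V) (hI : ∀ e, ¬ IsCutEdge src dst e) (W : Finset V)
    (hW : ∀ e, src e ≠ dst e → src e ∈ W ∨ dst e ∈ W) (h9 : W.card ≤ 9) :
    ∃ C : Fin 6 → Finset E, (∀ i v, Even (deg src dst (C i) v)) ∧
      ∀ e, (univ.filter fun i => e ∈ C i).card = 4 := by
  classical
  -- no cut with one edge
  have hcut : TH676.A.Br src dst ∅ ∅ := by
    intro Y _ hY
    rw [sdiff_empty] at hY
    obtain ⟨e, he⟩ := card_eq_one.mp hY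
    apply hI e
    intro hr
    have hstay : ∀ x y, (under src dst {e' | e' ≠ e}).Reachable x y → (x ∈ Y ↔ y ∈ Y) := by
      rintro x y ⟨p⟩
      induction p with
      | nil => exact Iff.rfl
      | cons hadj _ ih =>
        refine Iff.trans ?_ ih
        obtain ⟨_, e', he', h1⟩ := hadj
        have hn : e' ∉ TH676.A.crs src dst Y := by
          rw [he, mem_singleton]; exact he'
        rw [TH676.A.mem_crs, not_not] at hn
        rcases h1 with ⟨h2, h3⟩ | ⟨h2, h3⟩
        · rw [h2, h3] at hn; exact hn
        · rw [h2, h3] at hn; exact hn.symm
    have hm : e ∈ TH676.A.crs src dst Y := by rw [he]; exact mem_singleton_self _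
    rw [TH676.A.mem_crs] at hm
    exact hm (hstay _ _ hr)
  obtain ⟨C, h1, h2⟩ := TH497.BF.six (R890.FF.bf_cover src dst W hcut hW h9)
  exact ⟨C, h1, h2⟩

end Pool.Agent.Results.MP_40718a_co.VertexCoverNine
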